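import Pool.Agent.H66.XP.TG

/-!
# Board xpm_modules (MP_0f8dca_lc), row MRS: sums with respect to the distribution of a block
-/

set_option autoImplicit false

namespace Pool.Agent.H31.XP

open Finset Pool.Agent.H6.NB Pool.Agent.H70.EH Pool.Agent.H78.XQ Pool.Agent.H66.IQ Pool.Agent.H66.XP
open Pool.Agent.H70.OQ (ic)

/-- Sum over functions some of whose values are replaced. -/
theorem mrs_ov {U α : Type} [Fintype U] [DecidableEq U] [Fintype α] [DecidableEq α] (m : α → ℝ)
    (hm : ∑ a, m a = 1) (K : Finset U) (B : U → α) (G : (U → α) → ℝ) :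
    ∑ P : U → α, (∏ u, m (P u)) * G (fun u => if u ∈ K then B u else P u) =
      ∑ P ∈ univ.filter (fun P : U → α => ∀ u ∈ K, P u = B u), (∏ u ∈ univ \ K, m (P u)) * G P := by
  classical
  have hmaps : ∀ P ∈ (univ : Finset (U → α)), (fun u => if u ∈ K then B u else P u) ∈
      univ.filter (fun P : U → α => ∀ u ∈ K, P u = B u) := by
    intro P _
    rw [Finset.mem_filter]
    refine ⟨Finset.mem_univ _, fun u hu => ?_⟩
    simp [hu]
  rw [← Finset.sum_fiberwise_of_maps_to hmaps]
  refine Finset.sum_congr rfl fun Q hQ => ?_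
  have hQ2 : ∀ u ∈ K, Q u = B u := (Finset.mem_filter.1 hQ).2
  have h1 : ∀ P ∈ (univ : Finset (U → α)).filter (fun P => (fun u => if u ∈ K then B u else P u) = Q),
      (∏ u, m (P u)) * G (fun u => if u ∈ K then B u else P u) = (∏ u, m (P u)) * G Q := by
    intro P hP
    rw [(Finset.mem_filter.1 hP).2]
  rw [Finset.sum_congr rfl h1, ← Finset.sum_mul]
  congr 1
  have h2 : (univ : Finset (U → α)).filter (fun P => (fun u => if u ∈ K then B u else P u) = Q) =
      Fintype.piFinset (fun u => if u ∈ K then (univ : Finset α) else {Q u}) := by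
    ext P
    rw [Finset.mem_filter, Fintype.mem_piFinset]
    constructor
    · rintro ⟨_, h⟩ u
      by_cases hu : u ∈ K
      · rw [if_pos hu]
        exact Finset.mem_univ _
      · rw [if_neg hu, Finset.mem_singleton]
        have := congrFun h u
        simpa [hu] using this
    · intro h
      refine ⟨Finset.mem_univ _, funext fun u => ?_⟩
      by_cases hu : u ∈ K
      · rw [if_pos hu, hQ2 u hu]
      · rw [if_neg hu]
        have := h u
        rwa [if_neg hu, Finset.mem_singleton] at this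
  rw [h2, ← Finset.prod_univ_sum (fun u => if u ∈ K then (univ : Finset α) else {Q u})
    (fun _ a => m a)]
  rw [← Finset.prod_subset (Finset.subset_univ (univ \ K))]
  · refine Finset.prod_congr rfl fun u hu => ?_
    have hu2 : u ∉ K := (Finset.mem_sdiff.1 hu).2
    rw [if_neg hu2, Finset.sum_singleton]
  · intro u _ hu
    have hu2 : u ∈ K := by
      by_contra h
      exact hu (Finset.mem_sdiff.2 ⟨Finset.mem_univ _, h⟩)
    rw [if_pos hu2, hm]

/-- Numerical estimates. -/
theorem mrs_num {r l q R n : ℕ} (h : Sz r l q R n) : 8 * R ≤ 2 ^ l ∧ 4 * 2 ^ (2 * r) ≤ 2 ^ n := by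
  have hr := h.r_ge
  have hl := h.l_ge
  have hl2 : 128000 ≤ l := by
    have : 20 ^ 3 ≤ r ^ 3 := Nat.pow_le_pow_left hr 3
    omega
  constructor
  · rw [h.R_eq, h.q_eq]
    obtain ⟨m, hm⟩ : ∃ m, m = l / 4 := ⟨_, rfl⟩
    have h1 : 4 * m ≤ l := by omega
    have h2 : l ≤ 5 * m := by omega
    have h3 : 26 ≤ m := by omega
    have h4 : m ≤ 2 ^ m := Nat.lt_two_pow_self.le
    have h5 : 10 * l + 100 + 3 ≤ 11 * l := by omega
    calc 8 * (512 * (10 * l + 100 + 3) ^ 2 * l) ≤ 8 * (512 * (11 * l) ^ 2 * l) := by gcongr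
      _ ≤ 8 * (512 * (11 * (5 * m)) ^ 2 * (5 * m)) := by gcongr
      _ = 61952 * 8 * 125 * m ^ 3 := by ring
      _ ≤ 2 ^ 26 * (2 ^ m) ^ 3 := by
          have : m ^ 3 ≤ (2 ^ m) ^ 3 := Nat.pow_le_pow_left h4 3
          exact Nat.mul_le_mul (by norm_num) this
      _ ≤ 2 ^ m * (2 ^ m) ^ 3 := by
          have : (2 : ℕ) ^ 26 ≤ 2 ^ m := Nat.pow_le_pow_right (by norm_num) h3
          exact Nat.mul_le_mul_right _ this
      _ = 2 ^ (4 * m) := by rw [← pow_succ', ← pow_mul]; ring_nf
      _ ≤ 2 ^ l := Nat.pow_le_pow_right (by norm_num) h1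
  · have h1 : 2 * r + 2 ≤ n := by
      rw [h.n_eq]
      have hr3 : r ≤ r ^ 3 := Nat.le_self_pow (by norm_num) r
      have hR : 1 ≤ R := by
        rw [h.R_eq]
        have : 0 < (q + 3) ^ 2 := by positivity
        have hl0 : 0 < l := by omega
        exact Nat.succ_le_of_lt (by positivity)
      calc 2 * r + 2 ≤ 1 * (2 * l + 3 * q) := by omega
        _ ≤ R * (2 * l + 3 * q) := Nat.mul_le_mul_right _ hR
    calc 4 * 2 ^ (2 * r) = 2 ^ (2 * r + 2) := by rw [pow_add]; ring
      _ ≤ 2 ^ n := Nat.pow_le_pow_right (by norm_num) h1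

/-- The extensions. -/
theorem mrs_ext {q l n : ℕ} (K : Mk l n) (B : Bc q l n) (h : (Fin n → Bool) → Bool) :
    Pool.Agent.H68.AC.Ext (kp K B) h ↔ ∀ z ∈ K.2, h z = B.2 z := by
  unfold Pool.Agent.H68.AC.Ext kp
  constructor
  · intro h1 z hz
    have := h1 z (B.2 z) (by simp [hz])
    exact this
  · intro h1 z b hb
    by_cases hz : z ∈ K.2
    · rw [if_pos hz] at hb
      rw [h1 z hz]
      exact Option.some.inj hb
    · rw [if_neg hz] at hb
      exact absurd hb (by simp)

/-- There are strings of given weight. -/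
theorem mrs_ne {q l n : ℕ} (K : Mk l n) (B : Bc q l n) (W : ℕ)
    (h1 : K.2.card ≤ W) (h2 : W + K.2.card ≤ 2 ^ n) : (ws (kp K B) W).Nonempty := by
  classical
  set T := K.2.filter fun z => B.2 z = true with hT
  have hT1 : T.card ≤ K.2.card := Finset.card_le_card (Finset.filter_subset _ _)
  have hc : (univ \ K.2 : Finset (Fin n → Bool)).card = 2 ^ n - K.2.card := by
    rw [Finset.card_sdiff_of_subset (Finset.subset_univ _), Finset.card_univ]
    simp
  obtain ⟨S, hS1, hS2⟩ := Finset.exists_subset_card_eq (s := (univ \ K.2 : Finset (Fin n → Bool)))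
    (n := W - T.card) (by rw [hc]; omega)
  refine ⟨fun z => if z ∈ K.2 then B.2 z else decide (z ∈ S), ?_⟩
  unfold ws
  rw [Finset.mem_filter]
  refine ⟨Finset.mem_univ _, (mrs_ext K B _).2 fun z hz => by simp [hz], ?_⟩
  unfold nt
  have h3 : (univ.filter fun z => (if z ∈ K.2 then B.2 z else decide (z ∈ S)) = true) = T ∪ S := by
    ext z
    rw [Finset.mem_filter, Finset.mem_union, hT, Finset.mem_filter]
    by_cases hz : z ∈ K.2
    · rw [if_pos hz]
      have hzS : z ∉ S := fun h => (Finset.mem_sdiff.1 (hS1 h)).2 hz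
      simp [hz, hzS]
    · rw [if_neg hz]
      simp [hz]
  have hd : Disjoint T S := by
    rw [Finset.disjoint_left]
    intro z hz hzS
    exact (Finset.mem_sdiff.1 (hS1 hzS)).2 (Finset.mem_filter.1 hz).1
  rw [h3, Finset.card_union_of_disjoint hd, hS2]
  omega

theorem pf_MRS (hMUV : Pool.Agent.H70.EH.T_MUV) (hWEC : T_WEC) : T_MRS := by
  classical
  intro r l q R n hSz b K B F hK1 hK2
  obtain ⟨hn1, hn2⟩ := mrs_num hSz
  have h2n : (0 : ℝ) < 2 ^ n := by positivity
  -- the weight
  set W : ((Fin (2 * l) → Bool) → VV q → Bool) → ℕ := fun P =>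
    if h : SayC q l b P then (hWEC r l q R n hSz b P h).choose else 0 with hW
  have hWs : ∀ P (h : SayC q l b P),
      (W P : ℝ) / 2 ^ n = (if b then 1 / 2 else 3 / 2) - kap q R P ∧ W P ≤ 2 ^ n ∧
      |(W P : ℝ) - 2 ^ n / 2| ≤ 2 * R / 2 ^ l * 2 ^ n := by
    intro P h
    have h1 : W P = (hWEC r l q R n hSz b P h).choose := by
      simp only [hW]
      rw [dif_pos h]
    rw [h1]
    exact (hWEC r l q R n hSz b P h).choose_spec
  have hFit : ∀ P (_ : SayC q l b P) (h : (Fin n → Bool) → Bool), Fit q R n b P h ↔ nt h = W P := by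
    intro P hP h
    unfold Fit
    rw [← (hWs P hP).1]
    constructor
    · intro h1
      have h2 : (nt h : ℝ) = W P := by
        rw [div_eq_div_iff h2n.ne' h2n.ne'] at h1
        exact mul_right_cancel₀ h2n.ne' h1
      exact_mod_cast h2
    · intro h1
      rw [h1]
  refine ⟨W, ?_, ?_, ?_⟩
  · intro P hP
    obtain ⟨_, h2, h3⟩ := hWs P hP
    refine ⟨h2, h3, ?_⟩
    have h4 : (2 : ℝ) * R / 2 ^ l ≤ 1 / 4 := by
      rw [div_le_div_iff₀ (by positivity) (by norm_num)]
      have : ((8 * R : ℕ) : ℝ) ≤ ((2 ^ l : ℕ) : ℝ) := by exact_mod_cast hn1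
      push_cast at this
      linarith
    have h5 : (2 : ℝ) * R / 2 ^ l * 2 ^ n ≤ 1 / 4 * 2 ^ n := mul_le_mul_of_nonneg_right h4 h2n.le
    have h6 := abs_le.1 (h3.trans h5)
    have h7 : (K.2.card : ℝ) ≤ 2 ^ n / 4 := by
      have h8 : ((4 * 2 ^ (2 * r) : ℕ) : ℝ) ≤ ((2 ^ n : ℕ) : ℝ) := by exact_mod_cast hn2
      have h9 : (K.2.card : ℝ) ≤ ((2 ^ (2 * r) : ℕ) : ℝ) := by exact_mod_cast hK2
      push_cast at h8 h9
      linarith
    refine mrs_ne K B (W P) ?_ ?_
    · have : (K.2.card : ℝ) ≤ W P := by linarith [h6.1]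
      exact_mod_cast this
    · have : (W P : ℝ) + K.2.card ≤ 2 ^ n := by linarith [h6.2]
      exact_mod_cast this
  · -- the distribution
    have hov : ∀ P : (Fin (2 * l) → Bool) → VV q → Bool,
        ov K.1 B.1 P = fun u => if u ∈ K.1 then B.1 u else P u := fun P => rfl
    have h1 := mrs_ov (mv b q) (hMUV b q).2.1 K.1 B.1 (fun P => ic (SayC q l b P) *
      wm (kp K B) (W P) fun h => F (P, h))
    have h1' : ∑ P : (Fin (2 * l) → Bool) → VV q → Bool,
        (∏ u, mv b q (P u)) * (ic (SayC q l b (ov K.1 B.1 P)) *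
          wm (kp K B) (W (ov K.1 B.1 P)) fun h => F (ov K.1 B.1 P, h)) =
        ∑ P ∈ univ.filter (fun P : (Fin (2 * l) → Bool) → VV q → Bool => ∀ u ∈ K.1, P u = B.1 u),
          (∏ u ∈ univ \ K.1, mv b q (P u)) * (ic (SayC q l b P) *
            wm (kp K B) (W P) fun h => F (P, h)) := h1
    rw [h1', Fintype.sum_prod_type, Finset.sum_filter]
    refine Finset.sum_congr rfl fun P _ => ?_
    by_cases hA : ∀ u ∈ K.1, P u = B.1 u
    · rw [if_pos hA]
      by_cases hS : SayC q l b P
      · have hic : ic (SayC q l b P) = 1 := by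
          unfold ic
          rw [if_pos hS]
        rw [hic, one_mul]
        have h2 : ∀ h : (Fin n → Bool) → Bool, mX q l R n b K B (P, h) * F (P, h) =
            if h ∈ ws (kp K B) (W P) then
              (∏ u ∈ univ \ K.1, mv b q (P u)) / (ws (kp K B) (W P)).card * F (P, h) else 0 := by
          intro h
          have hiff : (OkC q l R n b (P, h) ∧ Ag K B (P, h)) ↔ h ∈ ws (kp K B) (W P) := by
            unfold ws OkC Ag
            rw [Finset.mem_filter, mrs_ext, ← hFit P hS h]
            constructor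
            · rintro ⟨⟨_, h4⟩, h5, h6⟩
              exact ⟨Finset.mem_univ _, h6, h4⟩
            · rintro ⟨_, h6, h4⟩
              exact ⟨⟨hS, h4⟩, hA, h6⟩
          unfold mX
          by_cases hh : h ∈ ws (kp K B) (W P)
          · rw [if_pos (hiff.2 hh), if_pos hh]
            have h8 : nt h = W P := by
              unfold ws at hh
              exact (Finset.mem_filter.1 hh).2.2
            rw [show nt (P, h).2 = W P from h8]
          · rw [if_neg (fun h9 => hh (hiff.1 h9)), if_neg hh, zero_mul]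
        rw [Finset.sum_congr rfl fun h _ => h2 h, Finset.sum_ite_mem, Finset.univ_inter,
          ← Finset.mul_sum]
        unfold wm
        ring
      · have hic : ic (SayC q l b P) = 0 := by
          unfold ic
          rw [if_neg hS]
        rw [hic, zero_mul, mul_zero]
        refine Finset.sum_eq_zero fun h _ => ?_
        unfold mX
        rw [if_neg (fun h9 => hS h9.1.1), zero_mul]
    · rw [if_neg hA]
      refine Finset.sum_eq_zero fun h _ => ?_
      unfold mX
      rw [if_neg (fun h9 => hA h9.2.1), zero_mul]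
  · -- the uniform distribution
    have h1 : ∑ P : (Fin (2 * l) → Bool) → VV q → Bool,
        (∏ u, mv false q (P u)) * mn (rst (kp K B) fun h => F (ov K.1 B.1 P, h)) =
        ∑ P ∈ univ.filter (fun P : (Fin (2 * l) → Bool) → VV q → Bool => ∀ u ∈ K.1, P u = B.1 u),
          (∏ u ∈ univ \ K.1, mv false q (P u)) * mn (rst (kp K B) fun h => F (P, h)) :=
      mrs_ov (mv false q) (hMUV false q).2.1 K.1 B.1 (fun P => mn (rst (kp K B) fun h => F (P, h)))
    rw [h1, Fintype.sum_prod_type, Finset.sum_filter]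
    refine Finset.sum_congr rfl fun P _ => ?_
    by_cases hA : ∀ u ∈ K.1, P u = B.1 u
    · rw [if_pos hA]
      have hcd : Fintype.card (Fin n → Bool) = 2 ^ n := by simp
      have hKc : K.2.card ≤ 2 ^ n := by
        rw [← hcd]
        exact Finset.card_le_univ _
      have h2 : mn (rst (kp K B) fun h => F (P, h)) =
          ∑ y : (Fin n → Bool) → Bool, (∏ _u : Fin n → Bool, (1 / 2 : ℝ)) *
            F (P, fun z => if z ∈ K.2 then B.2 z else y z) := by
        unfold mn rst kp
        rw [Finset.sum_div]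
        refine Finset.sum_congr rfl fun y _ => ?_
        rw [Finset.prod_const, Finset.card_univ, hcd]
        have h3 : (fun v => ((if v ∈ K.2 then some (B.2 v) else none : Option Bool)).getD (y v)) =
            fun z => if z ∈ K.2 then B.2 z else y z := by
          funext z
          by_cases hz : z ∈ K.2
          · rw [if_pos hz, if_pos hz]
            rfl
          · rw [if_neg hz, if_neg hz]
            rfl
        rw [h3, one_div, inv_pow]
        field_simp
      have h4 := mrs_ov (fun _ : Bool => (1 / 2 : ℝ)) (by simp) K.2 B.2 (fun h => F (P, h))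
      rw [h2, h4, Finset.sum_filter, Finset.mul_sum]
      refine Finset.sum_congr rfl fun h _ => ?_
      unfold m0X Ag
      by_cases hh : ∀ u ∈ K.2, h u = B.2 u
      · rw [if_pos hh, if_pos ⟨hA, hh⟩, Finset.prod_const,
          Finset.card_sdiff_of_subset (Finset.subset_univ _), Finset.card_univ, hcd, one_div, inv_pow]
        field_simp
      · rw [if_neg hh, if_neg (fun h9 => hh h9.2), zero_mul, mul_zero]
    · rw [if_neg hA]
      refine Finset.sum_eq_zero fun h _ => ?_
      unfold m0X Ag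
      rw [if_neg (fun h9 => hA h9.1), zero_mul]

end Pool.Agent.H31.XP
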